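import Pool.Agent.H36.ENR.Stmts2

set_option autoImplicit false

namespace Pool.ENR

open Pool.Agent.H81.ENG Pool.Agent.H55.NEU

theorem se4_two {F : Type} [Field F] [CharP F 2] : (2 : F) = 0 := by
  have h := CharP.cast_eq_zero F 2
  exact_mod_cast h

theorem se4_sq {F : Type} [Field F] [CharP F 2] {r : F} (h : r * r = 1) : r = 1 := by
  have h2 : (2 : F) = 0 := se4_two
  rcases sq_one h with h1 | h1
  · exact h1
  · rw [h1]
    linear_combination (-1) * h2

theorem se4_inj {F : Type} [Field F] [CharP F 2] {M N : SL2 F} (h : pr M = pr N) : M = N := by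
  obtain ⟨r, hr, h1⟩ := pr_eq_iff.1 h
  have h3 := se4_sq hr
  subst h3
  apply sl_ext
  · rw [h1, one_mul]
  · rw [h1, one_mul]
  · rw [h1, one_mul]
  · rw [h1, one_mul]

/-- The nonsplit torus. -/
def se4_G (F : Type) [Field F] (t v : F) : Subgroup (PS F) where
  carrier := {g | ∃ M : SL2 F, M 1 1 = M 0 0 + M 1 0 * t ∧ M 0 1 = M 1 0 * v ∧ pr M = g}
  one_mem' := by
    refine ⟨1, ?_, ?_, map_one _⟩
    · change (1 : F) = 1 + 0 * t
      ring
    · change (0 : F) = 0 * v
      ring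
  mul_mem' := by
    rintro _ _ ⟨M, h1, h2, rfl⟩ ⟨N, h3, h4, rfl⟩
    refine ⟨M * N, ?_, ?_, map_mul _ _ _⟩
    · rw [mul_11, mul_00, mul_10, h1, h2, h3, h4]
      ring
    · rw [mul_01, mul_10, h1, h2, h3, h4]
      ring
  inv_mem' := by
    rintro _ ⟨M, h1, h2, rfl⟩
    refine ⟨M⁻¹, ?_, ?_, map_inv _ _⟩
    · rw [inv_eq]
      change M 0 0 = M 1 1 + (-(M 1 0)) * t
      rw [h1]
      ring
    · rw [inv_eq]
      change -(M 0 1) = (-(M 1 0)) * v
      rw [h2]
      ring

theorem se4_thm : POWStmt → H9AStmt → SE4Stmt := by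
  intro hPOW hH9A F _ _ _ j φ b hφ ht
  have h2 : (2 : F) = 0 := se4_two
  obtain ⟨t, htdef⟩ : ∃ t : F, t = ∑ l ∈ Finset.range (2 ^ j), (φ ^ l) b := ⟨_, rfl⟩
  rw [← htdef] at ht
  have hφn : φ ^ (2 ^ j) = 1 := by
    rw [← hφ]
    exact pow_orderOf_eq_one φ
  have hφt : φ t = t := by
    have e1 : φ t = ∑ l ∈ Finset.range (2 ^ j), (φ ^ (l + 1)) b := by
      rw [htdef, map_sum]
      apply Finset.sum_congr rfl
      intro l _
      rw [pow_succ', RingAut.mul_apply]
    have e2 := Finset.sum_range_succ (fun l => (φ ^ l) b) (2 ^ j)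
    have e3 := Finset.sum_range_succ' (fun l => (φ ^ l) b) (2 ^ j)
    rw [e3] at e2
    rw [hφn, pow_zero] at e2
    rw [e1, htdef]
    exact add_right_cancel e2
  have hφlt : ∀ l : ℕ, (φ ^ l) t = t := by
    intro l
    induction l with
    | zero => rw [pow_zero]; rfl
    | succ l ih => rw [pow_succ', RingAut.mul_apply, ih, hφt]
  -- the element v
  obtain ⟨v, hv0, hv⟩ : ∃ v : F, v ≠ 0 ∧ φ v + v = b * b + t * b := by
    have hs : ∑ l ∈ Finset.range (2 ^ j), (φ ^ l) (b * b + t * b) = 0 := by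
      have e1 : ∀ l ∈ Finset.range (2 ^ j), (φ ^ l) (b * b + t * b) =
          (φ ^ l) b ^ 2 + t * (φ ^ l) b := by
        intro l _
        rw [map_add, map_mul, map_mul, hφlt]
        ring
      rw [Finset.sum_congr rfl e1, Finset.sum_add_distrib, ← Finset.mul_sum, ← htdef]
      have e2 : ∑ l ∈ Finset.range (2 ^ j), (φ ^ l) b ^ 2 = t ^ 2 := by
        rw [htdef]
        exact (sum_pow_char 2 _ _).symm
      rw [e2]
      linear_combination (t ^ 2) * h2
    obtain ⟨y, hy⟩ := hH9A F φ (2 ^ j) (b * b + t * b) hφ (by positivity) hs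
    by_cases hy0 : y = 0
    · refine ⟨1, one_ne_zero, ?_⟩
      rw [hy, hy0, map_zero, map_one]
      linear_combination h2
    · refine ⟨y, hy0, ?_⟩
      rw [hy]
      linear_combination (φ y) * h2
  obtain ⟨σ, hσ⟩ : ∃ σ : MulAut (PS F), σ = MulAut.conj (pr (uu b)) * ee 1 φ := ⟨_, rfl⟩
  rw [← hσ]
  have hfwd : ∀ x, x ∈ se4_G F t v → σ x ∈ se4_G F t v := by
    rintro _ ⟨M, h3, h4, rfl⟩
    have e00 : (EE 1 φ M) 0 0 = φ (M 0 0) := rfl
    have e01 : (EE 1 φ M) 0 1 = φ (M 1 0) * φ v := by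
      change ((1 : Fˣ) : F) * φ (M 0 1) = _
      rw [h4, map_mul, Units.val_one, one_mul]
    have e10 : (EE 1 φ M) 1 0 = φ (M 1 0) := by
      change (((1 : Fˣ)⁻¹ : Fˣ) : F) * φ (M 1 0) = _
      rw [inv_one, Units.val_one, one_mul]
    have e11 : (EE 1 φ M) 1 1 = φ (M 0 0) + φ (M 1 0) * t := by
      change φ (M 1 1) = _
      rw [h3, map_add, map_mul, hφt]
    have u00 : ∀ x : F, (uu x) 0 0 = 1 := fun _ => rfl
    have u01 : ∀ x : F, (uu x) 0 1 = x := fun _ => rfl
    have u10 : ∀ x : F, (uu x) 1 0 = 0 := fun _ => rfl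
    have u11 : ∀ x : F, (uu x) 1 1 = 1 := fun _ => rfl
    have w00 : (uu b * EE 1 φ M) 0 0 = φ (M 0 0) + b * φ (M 1 0) := by
      rw [mul_00, e00, e10, u00, u01, one_mul]
    have w01 : (uu b * EE 1 φ M) 0 1 =
        φ (M 1 0) * φ v + b * (φ (M 0 0) + φ (M 1 0) * t) := by
      rw [mul_01, e01, e11, u00, u01, one_mul]
    have w10 : (uu b * EE 1 φ M) 1 0 = φ (M 1 0) := by
      rw [mul_10, e00, e10, u10, u11, zero_mul, one_mul, zero_add]
    have w11 : (uu b * EE 1 φ M) 1 1 = φ (M 0 0) + φ (M 1 0) * t := by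
      rw [mul_11, e01, e11, u10, u11, zero_mul, one_mul, zero_add]
    refine ⟨uu b * EE 1 φ M * (uu b)⁻¹, ?_, ?_, ?_⟩
    · rw [uu_inv, mul_11, mul_00 (uu b * EE 1 φ M), mul_10 (uu b * EE 1 φ M), w00, w01, w10, w11,
        u00, u01, u10, u11]
      linear_combination (-b * φ (M 1 0)) * h2
    · rw [uu_inv, mul_01 (uu b * EE 1 φ M), mul_10 (uu b * EE 1 φ M), w00, w01, w10, w11,
        u00, u01, u10, u11]
      linear_combination (φ (M 1 0)) * hv + (b * t * φ (M 1 0) - φ (M 1 0) * v) * h2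
    · rw [hσ, MulAut.mul_apply, ee_pr, MulAut.conj_apply, map_mul, map_mul, map_inv]
  have hfin : Finite (MulAut (PS F)) := inferInstance
  have hpw : ∀ (k : ℕ) x, x ∈ se4_G F t v → (σ ^ k) x ∈ se4_G F t v := by
    intro k
    induction k with
    | zero => intro x hx; rw [pow_zero]; exact hx
    | succ k ih =>
      intro x hx
      rw [pow_succ', MulAut.mul_apply]
      exact hfwd _ (ih x hx)
  have hbwd : ∀ x, σ x ∈ se4_G F t v → x ∈ se4_G F t v := by
    intro x hx
    have hn : 0 < orderOf σ := orderOf_pos σ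
    have e1 : (σ ^ (orderOf σ - 1)) (σ x) = x := by
      rw [← MulAut.mul_apply, ← pow_succ, Nat.sub_add_cancel hn, pow_orderOf_eq_one]
      rfl
    rw [← e1]
    exact hpw _ _ hx
  have hσn : σ ^ (2 ^ j) = MulAut.conj (pr (uu t)) := by
    rw [hσ, hPOW F φ b (2 ^ j), ← htdef, hφn, ee_one_one, mul_one]
  refine ⟨se4_G F t v, ⊥, fun x => ⟨hfwd x, hbwd x⟩, ?_, bot_le, ?_, ?_, ?_, ?_⟩
  · intro x
    rw [Subgroup.mem_bot, Subgroup.mem_bot]
    constructor
    · rintro rfl
      exact map_one σ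
    · intro hx
      apply σ.injective
      rw [hx, map_one]
  · intro g _ x hx
    rw [Subgroup.mem_bot] at hx
    rw [hx, mul_one, mul_inv_cancel]
    exact Subgroup.one_mem _
  · rw [Subgroup.relIndex_bot_left]
    intro hd
    obtain ⟨g, hg⟩ := exists_prime_orderOf_dvd_card' 2 hd
    have hg2 : g * g = 1 := by
      have := pow_orderOf_eq_one g
      rwa [hg, pow_two] at this
    have hg1 : g ≠ 1 := by
      rintro rfl
      rw [orderOf_one] at hg
      omega
    apply hg1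
    obtain ⟨x, M, h3, h4, h5⟩ := g
    have h6 : x * x = 1 := congrArg Subtype.val hg2
    rw [← h5, ← map_mul, ← map_one (Pool.Agent.H55.NEU.pr (F := F))] at h6
    have h7 := se4_inj h6
    have h8 : (M * M) 1 0 = 0 := by rw [h7]; rfl
    have h9 : (M * M) 0 0 = 1 := by rw [h7]; rfl
    rw [mul_10, h3] at h8
    have h10 : M 1 0 * M 1 0 * t = 0 := by
      linear_combination h8 - (M 0 0 * M 1 0) * h2
    have h11 : M 1 0 = 0 := by
      rcases mul_eq_zero.1 h10 with h | h
      · exact mul_self_eq_zero.1 h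
      · exact absurd h ht
    rw [mul_00, h11, mul_zero, add_zero] at h9
    have h12 := se4_sq h9
    have h13 : M = 1 := by
      apply sl_ext
      · exact h12
      · rw [h4, h11, zero_mul]; rfl
      · exact h11
      · rw [h3, h11, zero_mul, add_zero]; exact h12
    apply Subtype.ext
    change x = 1
    rw [← h5, h13, map_one]
  · rw [Subgroup.relIndex_bot_left]
    exact Nat.card_pos.ne'
  · have hdet : ((v + t * t) / v) * ((v + t * t) / v + (t / v) * t) - ((t / v) * v) * (t / v) = 1 := by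
      field_simp
      linear_combination (v * t ^ 2 + t ^ 4) * h2
    refine ⟨pr (mk2 ((v + t * t) / v) ((t / v) * v) (t / v) ((v + t * t) / v + (t / v) * t) hdet),
      ⟨_, rfl, rfl, rfl⟩, ?_⟩
    rw [Subgroup.mem_bot, hσn, MulAut.conj_apply]
    intro h3
    have h4 := mul_inv_eq_one.1 h3
    have h5 := mul_inv_eq_iff_eq_mul.1 h4
    rw [← map_mul, ← map_mul] at h5
    have h6 := se4_inj h5
    have h7 := congrArg (fun N : SL2 F => N 0 0) h6
    change (uu t * _ : SL2 F) 0 0 = (_ * uu t : SL2 F) 0 0 at h7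
    rw [mul_00, mul_00, mk2_00, mk2_01, mk2_10] at h7
    have u00 : (uu t) 0 0 = 1 := rfl
    have u01 : (uu t) 0 1 = t := rfl
    have u10 : (uu t) 1 0 = 0 := rfl
    rw [u00, u01, u10] at h7
    have h8 : t * (t / v) = 0 := by linear_combination h7
    rcases mul_eq_zero.1 h8 with h | h
    · exact ht h
    · exact (div_ne_zero ht hv0) h

end Pool.ENR
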